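import Mathlib
import Pool.Agent.Run7.h7.ConeThm

/-!
Cubic cones over diffeomorphisms of the sphere: they are second order Sobolev homeomorphisms,
and such a cone is a limit of diffeomorphisms (equivalently, of immersions) if and only if the
diffeomorphism of the sphere extends to a diffeomorphism of the whole space.
-/

open MeasureTheory Filter Set Metric Run7.h7
open scoped Topology ENNReal ContDiff Manifold

namespace Pool.Agent.Results.MP_ea0877_an.ConeMaps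

theorem result (m : ℕ) (q : ℝ≥0∞) (hq : (m : ℝ≥0∞) + 1 < q) (hq' : q ≠ ⊤)
    (φ : Sph m → Sph m) (hφ : IsSphDiffeo φ) (Ω : Set (E (m + 1))) (hΩ : IsOpen Ω)
    (hb : Bornology.IsBounded Ω) (h0 : 0 ∈ Ω) :
    IsW2Homeo Ω q (coneMap φ) ∧ IsDiffeoOn (Ω \ {0}) (coneMap φ) ∧
    (IsW2Limit (IsDiffeoOn Ω) Ω q (coneMap φ) ↔ ExtendsToDiffeo φ) ∧
    (IsW2Limit (IsImmersionOn Ω) Ω q (coneMap φ) ↔ ExtendsToDiffeo φ) := by
  obtain ⟨hφ, ψ, hψ, h, h'⟩ := hφ
  have hf2 : ContDiff ℝ 2 (coneMap φ) := coneMap_contDiff hφ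
  have hback : IsW2Limit (IsImmersionOn Ω) Ω q (coneMap φ) → ExtendsToDiffeo φ :=
    extends_of_limit hφ hψ h hΩ h0 (by exact_mod_cast hq) hq'
  have hforw : ExtendsToDiffeo φ → IsW2Limit (IsDiffeoOn Ω) Ω q (coneMap φ) :=
    fun he => limit_of_extends hφ he hΩ hb q
  have himp : IsW2Limit (IsDiffeoOn Ω) Ω q (coneMap φ) →
      IsW2Limit (IsImmersionOn Ω) Ω q (coneMap φ) :=
    IsW2Limit.imp fun g hg => hg.isImmersionOn hΩ
  refine ⟨⟨coneMap_isHomeoOn hφ hψ h h' hΩ, _, _, InW2.of_contDiff hΩ hb hf2 q⟩, ?_,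
    ⟨fun hl => hback (himp hl), hforw⟩, ⟨hback, fun he => himp (hforw he)⟩⟩
  refine isDiffeoOn_of_injOn (hΩ.sdiff isClosed_singleton)
    ((coneMap_contDiffOn hφ).mono fun x hx => hx.2) ?_ ?_
  · intro x hx
    rw [coneMap_eq_rcone]
    exact rcone_fderiv_inj (by norm_num) hφ hψ h hx.2
  · intro x _ y _ hxy
    rw [coneMap_eq_rcone] at hxy
    rw [← rcone_rcone (a := 3) (b := 1 / 3) (by norm_num) h x,
      ← rcone_rcone (a := 3) (b := 1 / 3) (by norm_num) h y, hxy]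

end Pool.Agent.Results.MP_ea0877_an.ConeMaps
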