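import Mathlib
import Pool.Agent.Run7.h7.RelThm
import Pool.Agent.Run7.h7.W2C1
import Pool.Agent.Run7.h7.CorankOpen
import Pool.Agent.Run7.h7.FineDefs
import Pool.Agent.Run7.h7.CorankDefs

/-!
Second order Sobolev homeomorphisms of class `C^1` are limits of homeomorphisms with the same
image which are diffeomorphisms off the set of points where the rank of the derivative drops by
at least two (or off any larger closed set, where they are not changed at all).
-/

open MeasureTheory Filter Set Metric Run7.h7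
open scoped Topology ENNReal ContDiff

namespace Pool.Agent.Results.MP_ea0877_an.CriticalSet

theorem result (n : ℕ) (Ω : Set (E n)) (hΩ : IsOpen Ω) (q : ℝ≥0∞) (hq : 1 ≤ q) (hq' : q ≠ ⊤)
    (f : E n → E n) (hf : IsW2Homeo Ω q f) (hc : (n : ℝ≥0∞) < q ∨ ContDiffOn ℝ 1 f Ω) :
    IsOpen (Ω \ {x | 2 ≤ corank f x}) ∧
    ∀ Z : Set (E n), IsOpen (Ω \ Z) → (∀ x ∈ Ω \ Z, corank f x ≤ 1) →
      ∀ τ : E n → ℝ, ContinuousOn τ (Ω \ Z) → (∀ x ∈ Ω \ Z, 0 < τ x) →
        IsW2Limit (IsFineApprox Ω Z f τ) Ω q f := by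
  obtain ⟨hhom, Df, D2f, hw⟩ := hf
  have hc1 : ContDiffOn ℝ 1 f Ω := by
    rcases hc with h | h
    · rcases Nat.eq_zero_or_pos n with h0 | h0
      · subst h0
        have : f = fun _ => 0 := by ext1 x; exact Subsingleton.elim _ _
        rw [this]
        exact contDiffOn_const
      · exact contDiffOn_of_W2 hΩ h0 h hq' hw hhom.1
    · exact h
  refine ⟨isOpen_corank hΩ hc1, fun Z hZ hk τ hτ hpos => ?_⟩
  refine limit_fine hΩ hZ hq hq' hw hhom hc1 (fun x hx => ?_) hτ hpos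
  obtain ⟨w0, hw0⟩ := finrank_le_one_iff.1 (hk x hx)
  refine ⟨w0, fun w hw => ?_⟩
  obtain ⟨c, hc⟩ := hw0 ⟨w, hw⟩
  exact ⟨c, by simpa using (congrArg Subtype.val hc).symm⟩

end Pool.Agent.Results.MP_ea0877_an.CriticalSet
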